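import Pool.Agent.Helper35.RG.UNR

set_option autoImplicit false
set_option linter.all false

open Polynomial IsDedekindDomain NumberField
open scoped Classical

namespace Pool.Agent.Helper35.RG.SUR

open Pool.Agent.TH115.GD Pool.Agent.Helper55.RG Pool.Agent.Helper55.TT Pool.Agent.R939.EI

/-- conjugates over the residue field -/
theorem exists_conj {k k' : Type} [Field k] [CharZero k] [Field k'] [Algebra k k']
    [IsAlgClosed k'] [Algebra.IsAlgebraic k k'] {π : k[X]} {θ : k'} (hπ : Irreducible π)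
    (hθ : aeval θ π = 0) {g : k[X][X]} (hg : g.Monic)
    (hirr : Irreducible (g.map (AdjoinRoot.mk π))) {b b₂ : k'}
    (hb : ((g.map (mapRingHom (algebraMap k k'))).map (evalRingHom θ)).eval b = 0)
    (hb₂ : ((g.map (mapRingHom (algebraMap k k'))).map (evalRingHom θ)).eval b₂ = 0) :
    ∃ s : k' ≃ₐ[k] k', s θ = θ ∧ s b = b₂ := by
  haveI : Fact (Irreducible π) := ⟨hπ⟩
  let j : AdjoinRoot π →+* k' := AdjoinRoot.lift (algebraMap k k') θ hθ
  letI : Algebra (AdjoinRoot π) k' := j.toAlgebra
  haveI : IsScalarTower k (AdjoinRoot π) k' := IsScalarTower.of_algebraMap_eq fun x => by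
    show algebraMap k k' x = j (AdjoinRoot.of π x)
    exact (AdjoinRoot.lift_of hθ).symm
  haveI : Algebra.IsAlgebraic (AdjoinRoot π) k' := Algebra.IsAlgebraic.tower_top (K := k) _
  haveI : IsAlgClosure (AdjoinRoot π) k' := ⟨inferInstance, inferInstance⟩
  haveI : Normal (AdjoinRoot π) k' := IsAlgClosure.normal _ _
  have hmap : (g.map (mapRingHom (algebraMap k k'))).map (evalRingHom θ) =
      (g.map (AdjoinRoot.mk π)).map (algebraMap (AdjoinRoot π) k') := by
    rw [Polynomial.map_map, Polynomial.map_map]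
    congr 1
    ext x
    · show ((C x : k[X]).map (algebraMap k k')).eval θ = j (AdjoinRoot.mk π (C x))
      rw [Polynomial.map_C, eval_C, AdjoinRoot.mk_C]
      exact (AdjoinRoot.lift_of hθ).symm
    · show ((X : k[X]).map (algebraMap k k')).eval θ = j (AdjoinRoot.mk π X)
      rw [Polynomial.map_X, eval_X, AdjoinRoot.mk_X]
      exact (AdjoinRoot.lift_root hθ).symm
  rw [hmap] at hb hb₂
  have hm : (g.map (AdjoinRoot.mk π)).Monic := hg.map _
  have m1 : minpoly (AdjoinRoot π) b = g.map (AdjoinRoot.mk π) := by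
    symm
    apply minpoly.eq_of_irreducible_of_monic hirr _ hm
    rwa [eval_map_algebraMap] at hb
  have m2 : minpoly (AdjoinRoot π) b₂ = g.map (AdjoinRoot.mk π) := by
    symm
    apply minpoly.eq_of_irreducible_of_monic hirr _ hm
    rwa [eval_map_algebraMap] at hb₂
  obtain ⟨s, hs⟩ := isConjRoot_iff_exists_algEquiv.1
    (show IsConjRoot (AdjoinRoot π) b₂ b from m2.trans m1.symm)
  refine ⟨s.restrictScalars k, ?_, hs⟩
  have : θ = algebraMap (AdjoinRoot π) k' (AdjoinRoot.root π) :=
    (AdjoinRoot.lift_root hθ).symm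
  show s θ = θ
  rw [this, s.commutes]

/-- the reduction is separable -/
theorem sep_red {k k' : Type} [Field k] [CharZero k] [Field k'] [Algebra k k']
    {π : k[X]} {θ : k'} (hπ : Irreducible π)
    (hθ : aeval θ π = 0) {g : k[X][X]}
    (hirr : Irreducible (g.map (AdjoinRoot.mk π))) :
    ((g.map (mapRingHom (algebraMap k k'))).map (evalRingHom θ)).Separable := by
  haveI : Fact (Irreducible π) := ⟨hπ⟩
  let j : AdjoinRoot π →+* k' := AdjoinRoot.lift (algebraMap k k') θ hθ
  have hmap : (g.map (mapRingHom (algebraMap k k'))).map (evalRingHom θ) =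
      (g.map (AdjoinRoot.mk π)).map j := by
    rw [Polynomial.map_map, Polynomial.map_map]
    congr 1
    ext x
    · show ((C x : k[X]).map (algebraMap k k')).eval θ = j (AdjoinRoot.mk π (C x))
      rw [Polynomial.map_C, eval_C, AdjoinRoot.mk_C]
      exact (AdjoinRoot.lift_of hθ).symm
    · show ((X : k[X]).map (algebraMap k k')).eval θ = j (AdjoinRoot.mk π X)
      rw [Polynomial.map_X, eval_X, AdjoinRoot.mk_X]
      exact (AdjoinRoot.lift_root hθ).symm
  rw [hmap]
  haveI : CharZero (AdjoinRoot π) :=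
    charZero_of_injective_algebraMap (algebraMap k (AdjoinRoot π)).injective
  exact hirr.separable.map

theorem em_K {k k' K F M : Type} [Field k] [Field k'] [Algebra k k'] [Field K]
    [Algebra k[X] K] [Field F] [Algebra k'[X] F] [Algebra K F] [Field M] [Algebra K M]
    [Algebra F M] [IsScalarTower K F M]
    (hKF : ∀ p : k[X], algebraMap K F (algebraMap k[X] K p) =
      algebraMap k'[X] F (p.map (algebraMap k k'))) {x : M} {g : k[X][X]}
    (hx : eval₂ (em k K M) x g = 0) :
    eval₂ (em k' F M) x (g.map (mapRingHom (algebraMap k k'))) = 0 := by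
  rw [eval₂_map]
  have : (em k' F M).comp (mapRingHom (algebraMap k k')) = em k K M := by
    refine RingHom.ext fun q => ?_
    show algebraMap F M (algebraMap k'[X] F (q.map (algebraMap k k'))) =
      algebraMap K M (algebraMap k[X] K q)
    rw [← hKF, ← IsScalarTower.algebraMap_apply]
  rw [this]
  exact hx

theorem main : S_SUR := by
  intro k k' K F _ _ _ _ _ _ _ _ _ _ hT π θ hπ hθ ι g hg hirr α hα σ
  haveI := hT.sep
  haveI := hT.fracK
  haveI : IsSepClosed k' := IsSepClosure.sep_closed k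
  haveI : CharZero k' := charZero_of_injective_algebraMap (algebraMap k k').injective
  haveI : IsAlgClosed k' := inferInstance
  haveI : Algebra.IsSeparable k k' := IsSepClosure.separable
  haveI : Algebra.IsAlgebraic k k' := inferInstance
  haveI : IsSepClosure K (Sep F) := sepKΩ hT.map
  haveI : Normal K (Sep F) := inferInstance
  set L := Comp k'[X] F (pl θ) with hL
  set g' : k'[X][X] := g.map (mapRingHom (algebraMap k k')) with hg'
  have hg'm : g'.Monic := hg.map _
  have hsep := sep_red (k' := k') hπ hθ hirr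
  obtain ⟨B, hB1, hB2⟩ := UNR.roots_struct (F := F) g' θ hg'm hsep
  have hroot : ∀ x : Sep F, eval₂ (em k K (Sep F)) x g = 0 →
      ∃ b, (g'.map (evalRingHom θ)).eval b = 0 ∧ ι x = algebraMap L (Sep L) (B b) := by
    intro x hx
    exact hB2 _ (ι x) (UNR.root_image θ ι (em_K hT.map hx))
  have hinv : ∀ (τ : Sep F ≃ₐ[K] Sep F) (x : Sep F), eval₂ (em k K (Sep F)) x g = 0 →
      eval₂ (em k K (Sep F)) (τ x) g = 0 := by
    intro τ x hx
    have h1 : (τ : Sep F →+* Sep F).comp (em k K (Sep F)) = em k K (Sep F) := by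
      refine RingHom.ext fun q => ?_
      show τ (algebraMap K (Sep F) (algebraMap k[X] K q)) = _
      rw [τ.commutes]
      rfl
    have := hom_eval₂ g (em k K (Sep F)) (τ : Sep F →+* Sep F) x
    rw [hx, map_zero, h1] at this
    exact this.symm
  obtain ⟨b, hb, hιb⟩ := hroot α hα
  obtain ⟨b₂, hb₂, hιb₂⟩ := hroot (σ α) (hinv σ α hα)
  obtain ⟨s, hs, hsb⟩ := exists_conj hπ hθ hg hirr hb hb₂
  obtain ⟨γ, hγ, hγw⟩ := comp_aut (pl θ) (es F (s : k' ≃+* k'))
    (es_val (F := F) θ (s : k' ≃+* k') hs)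
  have hγK : ∀ x : K, γ (algebraMap K L x) = algebraMap K _ x := by
    intro x
    rw [IsScalarTower.algebraMap_apply K F L, hγ, es_K hT]
  obtain ⟨G0, hG0⟩ := exists_G γ
  let G : Sep L ≃ₐ[K] Sep L :=
    AlgEquiv.ofRingEquiv (f := G0) (by
      intro x
      rw [IsScalarTower.algebraMap_apply K L (Sep L), hG0, hγK])
  obtain ⟨δ, hδ⟩ := exists_g ι G
  refine ⟨δ, ⟨G, γ, hG0, fun x => (hδ x).symm⟩, ?_⟩
  obtain ⟨b₃, hb₃, hιb₃⟩ := hroot (δ α) (hinv δ α hα)
  have h1 : γ (B b) = B b₃ := by
    apply inj_alg (E := Sep L)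
    rw [← hιb₃, hδ, hιb]
    exact (hG0 _).symm
  have h2 : va θ (γ (B b) - em k' F L (C b₂)) < 1 := by
    have h3 := (hB1 b hb).2
    have h4 : γ (em k' F L (C b)) = em k' F L (C b₂) := by
      show γ (algebraMap F L (cst k' F b)) = algebraMap F L (cst k' F b₂)
      rw [hγ, es_cst]
      show algebraMap F L (cst k' F (s b)) = _
      rw [hsb]
    rw [← h4, ← map_sub]
    show wv (pl θ) (γ _) < 1
    rw [hγw]
    exact h3
  rw [h1] at h2
  have h5 : b₃ = b₂ := UNR.res_uniq (hB1 b₃ hb₃).2 h2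
  have h6 : ι (δ α) = ι (σ α) := by rw [hιb₃, hιb₂, h5]
  exact ι.toRingHom.injective h6

end Pool.Agent.Helper35.RG.SUR
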