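import Pool.Agent.Helper55.RG.Spec2

set_option autoImplicit false
set_option linter.all false

open Polynomial IsDedekindDomain NumberField WithZero Filter Topology
open scoped Classical

namespace Pool.Agent.Helper35.RG.HEN

open Pool.Agent.TH115.GD Pool.Agent.Helper55.RG

/-- the valuation ring -/
abbrev OO (L : Type*) [Field L] [Valued L (WithZero (Multiplicative ℤ))] : Subring L :=
  (Valued.v (R := L) (Γ₀ := WithZero (Multiplicative ℤ))).integer

section

variable {L : Type*} [Field L] [Valued L (WithZero (Multiplicative ℤ))]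

/-- Hensel's lemma in a complete valued field. -/
theorem hensel_unit [CompleteSpace L] [T0Space L]
    (f : (OO L)[X]) (b : OO L) (hb : Valued.v ((f.eval b : OO L) : L) < 1)
    (hd : Valued.v ((f.derivative.eval b : OO L) : L) = 1) :
    ∃ β : OO L, f.eval β = 0 ∧ Valued.v ((β : L) - (b : L)) < 1 := by
  set c : OO L := f.derivative.eval b with hc
  have hc0 : (c : L) ≠ 0 := by
    intro h
    rw [h, map_zero] at hd
    exact zero_ne_one hd
  obtain ⟨ci, hci, hvci⟩ : ∃ ci : OO L, ci * c = 1 ∧ Valued.v (ci : L) = 1 := by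
    have h1 : Valued.v ((c : L)⁻¹) = 1 := by rw [map_inv₀, hd, inv_one]
    refine ⟨⟨(c : L)⁻¹, h1.le⟩, ?_, h1⟩
    apply Subtype.ext
    show (c : L)⁻¹ * (c : L) = 1
    exact inv_mul_cancel₀ hc0
  have hle : ∀ x : OO L, Valued.v (x : L) ≤ 1 := fun x => x.2
  let T : OO L → OO L := fun z => z - ci * f.eval z
  obtain ⟨z, z0, zs⟩ : ∃ z : ℕ → OO L, z 0 = b ∧ ∀ n, z (n + 1) = T (z n) :=
    ⟨fun n => Nat.rec b (fun _ y => T y) n, rfl, fun _ => rfl⟩
  set δ := Valued.v ((f.eval b : OO L) : L) with hδ
  have hT : ∀ y y' : OO L, Valued.v ((y - b : OO L) : L) ≤ δ → Valued.v ((y' - b : OO L) : L) ≤ δ →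
      Valued.v ((T y - T y' : OO L) : L) ≤ δ * Valued.v ((y - y' : OO L) : L) := by
    intro y y' hy hy'
    obtain ⟨k, hk⟩ := f.binomExpansion y' (y - y')
    obtain ⟨m, hm⟩ := f.derivative.evalSubFactor y' b
    rw [add_sub_cancel] at hk
    have e : T y - T y' = -(ci * ((m * (y' - b) + k * (y - y')) * (y - y'))) := by
      have e1 : f.derivative.eval y' = c + m * (y' - b) := by rw [← hm]; ring
      simp only [T]
      rw [hk, e1]
      have e2 : y - ci * (f.eval y' + (c + m * (y' - b)) * (y - y') + k * (y - y') ^ 2) -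
          (y' - ci * f.eval y') = (y - y') - (ci * c) * (y - y') -
          ci * ((m * (y' - b) + k * (y - y')) * (y - y')) := by ring
      rw [e2, hci]
      ring
    rw [e]
    push_cast
    rw [Valuation.map_neg, map_mul, hvci, one_mul, map_mul]
    refine mul_le_mul_left ?_ _
    refine (Valued.v.map_add _ _).trans (max_le ?_ ?_)
    · rw [map_mul]
      have := mul_le_mul' (hle m) hy'
      rw [one_mul] at this
      exact_mod_cast this
    · rw [map_mul]
      have h1 : Valued.v ((y - y' : OO L) : L) ≤ δ := by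
        have e3 : ((y - y' : OO L) : L) = ((y - b : OO L) : L) - ((y' - b : OO L) : L) := by
          push_cast; ring
        rw [e3]
        exact (Valued.v.map_sub _ _).trans (max_le hy hy')
      have := mul_le_mul' (hle k) h1
      rw [one_mul] at this
      exact_mod_cast this
  have hTb : T b - b = -(ci * f.eval b) := by simp only [T]; ring
  have hvTb : Valued.v ((T b - b : OO L) : L) = δ := by
    rw [hTb]
    push_cast
    rw [Valuation.map_neg, map_mul, hvci, one_mul]
  have hbb : Valued.v ((b - b : OO L) : L) ≤ δ := by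
    rw [sub_self]
    simp
  have hA : ∀ n, Valued.v ((z n - b : OO L) : L) ≤ δ := by
    intro n
    induction n with
    | zero => rw [z0]; exact hbb
    | succ n ih =>
      have h3 := hT (z n) b ih hbb
      have e : ((z (n + 1) - b : OO L) : L) = ((T (z n) - T b : OO L) : L) + ((T b - b : OO L) : L) := by
        rw [zs]; push_cast; ring
      rw [e]
      refine (Valued.v.map_add _ _).trans (max_le ?_ ?_)
      · refine h3.trans ?_
        exact mul_le_of_le_one_right' (ih.trans hb.le)
      · exact hvTb.le
  have hB : ∀ n, Valued.v ((z (n + 1) - z n : OO L) : L) ≤ Valued.v (((f.eval b : OO L) : L) ^ (n + 1)) := by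
    intro n
    induction n with
    | zero =>
      rw [zero_add, pow_one, zs, z0, hvTb]
    | succ n ih =>
      have h3 := hT (z (n + 1)) (z n) (hA _) (hA _)
      rw [← zs, ← zs] at h3
      refine h3.trans ?_
      rw [pow_succ' ((f.eval b : OO L) : L), map_mul]
      exact mul_le_mul_right ih _
  haveI := nonarch (L := L)
  have hlim : Tendsto (fun n => (z (n + 1) : L) - (z n : L)) atTop (𝓝 0) := by
    have h3 : Tendsto (fun n : ℕ => ((f.eval b : OO L) : L) ^ (n + 1)) atTop (𝓝 0) :=
      (Valued.tendsto_zero_pow_of_v_lt_one hb).comp (tendsto_add_atTop_nat 1)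
    rw [(Valued.hasBasis_nhds_zero L _).tendsto_right_iff] at h3 ⊢
    intro γ hγ
    filter_upwards [h3 γ hγ] with n hn
    have h4 : (Valued.v (R := L)).restrict ((z (n + 1) : L) - (z n : L)) ≤
        (Valued.v (R := L)).restrict (((f.eval b : OO L) : L) ^ (n + 1)) :=
      (Valuation.restrict_le_iff _).2 (hB n)
    exact lt_of_le_of_lt h4 hn
  have hcau : CauchySeq (fun n => (z n : L)) :=
    NonarchimedeanAddGroup.cauchySeq_of_tendsto_sub_nhds_zero hlim
  obtain ⟨w, hw⟩ := cauchySeq_tendsto_of_complete hcau
  let TL : L → L := fun y => y - (ci : L) * (f.map (OO L).subtype).eval y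
  have hTL : ∀ y : OO L, TL (y : L) = ((T y : OO L) : L) := by
    intro y
    simp only [TL, T]
    push_cast
    congr 2
    rw [eval_map]
    exact (Polynomial.hom_eval₂ f (RingHom.id (OO L)) (OO L).subtype y).symm
  have hTc : Continuous TL := by
    have : Continuous fun y : L => (f.map (OO L).subtype).eval y := Polynomial.continuous _
    fun_prop
  have hw1 : Tendsto (fun n => (z (n + 1) : L)) atTop (𝓝 w) := hw.comp (tendsto_add_atTop_nat 1)
  have hw2 : Tendsto (fun n => (z (n + 1) : L)) atTop (𝓝 (TL w)) := by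
    simp only [zs, ← hTL]
    exact (hTc.tendsto w).comp hw
  haveI : T2Space L := inferInstance
  have hfix : TL w = w := tendsto_nhds_unique hw2 hw1
  have hwb : Valued.v (w - (b : L)) < 1 := by
    have hcl : IsClosed {y : L | (Valued.v (R := L)).restrict (y - (b : L)) < 1} := by
      have h7 := Valued.isClosed_ball L (1 : MonoidWithZeroHom.ValueGroup₀
        (.ofClass (Valued.v (R := L))))
      exact h7.preimage (f := fun y : L => y - (b : L)) (by fun_prop)
    have h8 : w ∈ {y : L | (Valued.v (R := L)).restrict (y - (b : L)) < 1} := by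
      refine hcl.mem_of_tendsto hw (Eventually.of_forall fun n => ?_)
      show (Valued.v (R := L)).restrict ((z n : L) - (b : L)) < 1
      rw [Valuation.restrict_lt_one_iff]
      exact lt_of_le_of_lt (hA n) hb
    have h9 : (Valued.v (R := L)).restrict (w - (b : L)) < 1 := h8
    rwa [Valuation.restrict_lt_one_iff] at h9
  have hw1' : Valued.v w ≤ 1 := by
    have e : w = (w - (b : L)) + (b : L) := by ring
    rw [e]
    exact (Valued.v.map_add _ _).trans (max_le hwb.le (hle b))
  refine ⟨⟨w, hw1'⟩, ?_, hwb⟩
  have h5 : (ci : L) * (f.map (OO L).subtype).eval w = 0 := by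
    have : w - (ci : L) * (f.map (OO L).subtype).eval w = w := hfix
    linear_combination -this
  have hci0 : (ci : L) ≠ 0 := by
    intro h
    rw [h, map_zero] at hvci
    exact zero_ne_one hvci
  have h6 := (mul_eq_zero.1 h5).resolve_left hci0
  apply Subtype.ext
  rw [eval_map] at h6
  have := Polynomial.hom_eval₂ f (RingHom.id (OO L)) (OO L).subtype ⟨w, hw1'⟩
  exact this.trans h6

end

theorem main : S_HEN := by
  intro k' F _ _ _ _ g a b hg hgb hgd
  set L := Comp k'[X] F (pl a) with hL
  have hv : ∀ p : k'[X], wv (pl a) (algebraMap F L (algebraMap k'[X] F p)) ≤ 1 := by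
    intro p
    rw [wv_coe]
    exact HeightOneSpectrum.valuation_le_one _ _
  letI : Valued L (WithZero (Multiplicative ℤ)) :=
    (inferInstance : Valued ((pl a).adicCompletion F) (WithZero (Multiplicative ℤ)))
  haveI : CompleteSpace L := (inferInstance : CompleteSpace ((pl a).adicCompletion F))
  haveI : T0Space L := (inferInstance : T0Space ((pl a).adicCompletion F))
  let φ : k'[X] →+* OO L :=
    (em k' F L).codRestrict _ (fun p => hv p)
  have hφ : ∀ p, ((φ p : OO L) : L) =
      em k' F L p := fun p => rfl
  have e1 : (g.map φ).eval (φ (C b)) = φ (g.eval (C b)) := by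
    rw [eval_map, eval₂_at_apply]
  have e2 : (g.map φ).derivative.eval (φ (C b)) = φ (g.derivative.eval (C b)) := by
    rw [derivative_map, eval_map, eval₂_at_apply]
  have e3 : (g.eval (C b)).eval a = 0 := by
    rw [← hgb, eval_map, ← coe_evalRingHom, ← eval₂_hom, coe_evalRingHom, eval_C]
  have e4 : (g.derivative.eval (C b)).eval a ≠ 0 := by
    intro h
    apply hgd
    rw [derivative_map, eval_map, ← h, ← coe_evalRingHom, ← eval₂_hom, coe_evalRingHom, eval_C]
  obtain ⟨β, hβ1, hβ2⟩ := hensel_unit (g.map φ) (φ (C b)) (by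
      rw [e1, hφ]
      show wv (pl a) (algebraMap F L (algebraMap k'[X] F (g.eval (C b)))) < 1
      rw [wv_coe]
      exact val_lt_one a e3) (by
      rw [e2, hφ]
      show wv (pl a) (algebraMap F L (algebraMap k'[X] F (g.derivative.eval (C b)))) = 1
      rw [wv_coe]
      exact val_eq_one a e4)
  refine ⟨β, ?_, hβ2⟩
  have := congrArg (fun x : OO L => (x : L)) hβ1
  simp only [eval_map] at this
  have e5 := hom_eval₂ g φ (OO L).subtype β
  exact e5.symm.trans this

end Pool.Agent.Helper35.RG.HEN
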