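import Pool.Agent.Helper35.RG.HEN

set_option autoImplicit false
set_option linter.all false

open Polynomial IsDedekindDomain NumberField
open scoped Classical

namespace Pool.Agent.Helper35.RG.UNR

open Pool.Agent.TH115.GD Pool.Agent.Helper55.RG

section

variable {k' F : Type} [Field k'] [Field F] [Algebra k'[X] F] [IsFractionRing k'[X] F]

theorem em_C (a c : k') : em k' F (Comp k'[X] F (pl a)) (C c) = cL a F c := rfl

/-- residues are unique -/
theorem res_uniq {a b b' : k'} {x : Comp k'[X] F (pl a)}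
    (h : va a (x - em k' F (Comp k'[X] F (pl a)) (C b)) < 1)
    (h' : va a (x - em k' F (Comp k'[X] F (pl a)) (C b')) < 1) : b = b' := by
  have h1 : wv (pl a) (cL a F (b' - b)) < 1 := by
    have e : cL a F (b' - b) = (x - cL a F b) - (x - cL a F b') := by rw [map_sub]; ring
    rw [e]
    exact lt_of_le_of_lt (Valuation.map_sub _ _ _) (max_lt h h')
  have := cL_lt a h1
  exact (sub_eq_zero.1 this).symm

/-- all the roots of a polynomial which is separable at `t = a` -/
theorem roots_struct [IsAlgClosed k'] (g : k'[X][X]) (a : k') (hg : g.Monic)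
    (hsep : (g.map (evalRingHom a)).Separable) :
    ∃ B : k' → Comp k'[X] F (pl a),
      (∀ b, (g.map (evalRingHom a)).eval b = 0 →
        eval₂ (em k' F (Comp k'[X] F (pl a))) (B b) g = 0 ∧
          va a (B b - em k' F (Comp k'[X] F (pl a)) (C b)) < 1) ∧
      ∀ (E : Type) [Field E] [Algebra (Comp k'[X] F (pl a)) E] (x : E),
        eval₂ ((algebraMap (Comp k'[X] F (pl a)) E).comp (em k' F (Comp k'[X] F (pl a)))) x g = 0 →
        ∃ b, (g.map (evalRingHom a)).eval b = 0 ∧
          x = algebraMap (Comp k'[X] F (pl a)) E (B b) := by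
  set L := Comp k'[X] F (pl a) with hL
  set gg := g.map (evalRingHom a) with hgg
  have hggm : gg.Monic := hg.map _
  have hder : ∀ b, gg.eval b = 0 → gg.derivative.eval b ≠ 0 := by
    intro b hb h
    have := hsep
    rw [Polynomial.separable_def] at this
    obtain ⟨u, v, huv⟩ := this
    have h1 := congrArg (eval b) huv
    rw [eval_add, eval_mul, eval_mul, hb, h, mul_zero, mul_zero, add_zero, eval_one] at h1
    exact zero_ne_one h1
  have hex : ∀ b, ∃ β : L, gg.eval b = 0 → eval₂ (em k' F L) β g = 0 ∧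
      va a (β - em k' F L (C b)) < 1 := by
    intro b
    by_cases hb : gg.eval b = 0
    · obtain ⟨β, h1, h2⟩ := HEN.main k' F g a b hg hb (hder b hb)
      exact ⟨β, fun _ => ⟨h1, h2⟩⟩
    · exact ⟨0, fun h => absurd h hb⟩
  choose B hB using hex
  refine ⟨B, hB, ?_⟩
  intro E _ _ x hx
  let s : Finset k' := gg.roots.toFinset
  have hs : ∀ b, b ∈ s ↔ gg.eval b = 0 := by
    intro b
    simp only [s]
    rw [Multiset.mem_toFinset, mem_roots hggm.ne_zero, IsRoot.def]
  have hcard : s.card = g.natDegree := by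
    have h1 : gg.roots.card = gg.natDegree := by
      exact (splits_iff_card_roots.1 (IsAlgClosed.splits gg))
    have h2 : gg.natDegree = g.natDegree := hg.natDegree_map _
    have h3 : gg.roots.Nodup := nodup_roots hsep
    simp only [s]
    rw [Multiset.toFinset_card_of_nodup h3, h1, h2]
  let G : L[X] := g.map (em k' F L)
  have hGm : G.Monic := hg.map _
  let H : L[X] := ∏ b ∈ s, (X - C (B b))
  have hHm : H.Monic := monic_prod_of_monic _ _ fun b _ => monic_X_sub_C _
  have hHd : H.natDegree = s.card := by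
    simp only [H]
    rw [natDegree_prod_of_monic _ _ fun b _ => monic_X_sub_C _]
    simp
  have hinj : Set.InjOn B s := by
    intro b hb b' hb' h
    have h1 := (hB b ((hs b).1 hb)).2
    have h2 := (hB b' ((hs b').1 hb')).2
    rw [← h] at h2
    exact res_uniq h1 h2
  have hdvd : H ∣ G := by
    apply Finset.prod_dvd_of_coprime
    · intro b hb b' hb' hne
      apply isCoprime_X_sub_C_of_isUnit_sub
      rw [isUnit_iff_ne_zero]
      intro h
      exact hne (hinj hb hb' (sub_eq_zero.1 h))
    · intro b hb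
      rw [dvd_iff_isRoot, IsRoot.def]
      simp only [G]
      rw [eval_map]
      exact (hB b ((hs b).1 hb)).1
  have hGH : G = H := by
    apply eq_of_monic_of_dvd_of_natDegree_le hHm hGm hdvd
    rw [hHd, hcard]
    exact (hg.natDegree_map _).le
  have hxG : eval₂ (algebraMap L E) x G = 0 := by
    simp only [G]
    rw [eval₂_map]
    exact hx
  rw [hGH] at hxG
  simp only [H] at hxG
  rw [eval₂_finset_prod, Finset.prod_eq_zero_iff] at hxG
  obtain ⟨b, hb, hb2⟩ := hxG
  rw [eval₂_sub, eval₂_X, eval₂_C, sub_eq_zero] at hb2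
  exact ⟨b, (hs b).1 hb, hb2⟩

theorem em_comp {E : Type} [Field E] [Algebra F E] (a : k')
    (ι : E →ₐ[F] Sep (Comp k'[X] F (pl a))) :
    (ι : E →+* Sep (Comp k'[X] F (pl a))).comp (em k' F E) =
      (algebraMap (Comp k'[X] F (pl a)) (Sep (Comp k'[X] F (pl a)))).comp
        (em k' F (Comp k'[X] F (pl a))) := by
  refine RingHom.ext fun q => ?_
  show ι (algebraMap F E (algebraMap k'[X] F q)) =
    algebraMap (Comp k'[X] F (pl a)) (Sep (Comp k'[X] F (pl a)))
      (algebraMap F (Comp k'[X] F (pl a)) (algebraMap k'[X] F q))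
  rw [ι.commutes]
  exact IsScalarTower.algebraMap_apply F (Comp k'[X] F (pl a)) (Sep (Comp k'[X] F (pl a))) _

theorem root_image {E : Type} [Field E] [Algebra F E] (a : k')
    (ι : E →ₐ[F] Sep (Comp k'[X] F (pl a))) {g : k'[X][X]} {α : E}
    (hα : eval₂ (em k' F E) α g = 0) :
    eval₂ ((algebraMap (Comp k'[X] F (pl a)) (Sep (Comp k'[X] F (pl a)))).comp
        (em k' F (Comp k'[X] F (pl a)))) (ι α) g = 0 := by
  rw [← em_comp a ι]
  have := hom_eval₂ g (em k' F E) (ι : E →+* Sep (Comp k'[X] F (pl a))) α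
  rw [hα, map_zero] at this
  exact this.symm

end

theorem main : S_UNR := by
  intro k' F _ _ _ _ _ g a hg hsep α hα ι
  obtain ⟨B, hB1, hB2⟩ := roots_struct (F := F) g a hg hsep
  obtain ⟨b, hb, hx⟩ := hB2 _ (ι α) (root_image a ι hα)
  exact ⟨B b, hx, b, (hB1 b hb).2⟩

end Pool.Agent.Helper35.RG.UNR
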